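import Pool.Agent.J4.H51.OS.Main

/-!
# Amalgams of arithmetic groups onto lattices of `SU(n, 1)`: one prescribed factor

Q1 asks for nonarithmetic lattices `Γ` of `SU(n, 1)` which are images of amalgams `Γ₁ ⋆_{Γ₃} Γ₂` of
arithmetic lattices of `SU(n - 1, 1)` over an arithmetic lattice of `SU(n - 2, 1)`, under
homomorphisms which are injective on `Γ₁` and on `Γ₂`. We show that for **every** subgroup `Γ` of
`SU(n, 1)`, in particular for every lattice, and **every** non-elementary subgroup `Δ` of `Γ`, for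
instance an arithmetic lattice of `SU(n - 1, 1)` which is contained in `Γ`, there is such an
epimorphism `Δ ⋆_{Φ₃} Φ₂ → Γ`, equal to the inclusion on `Δ` and injective on `Φ₂`, where `Φ₃` and
`Φ₂` are free arithmetic lattices of `SU(1, 1) = SL(2, ℝ)`, of any rank `m` and of any rank
`k ≥ m + r`, if `Γ` is generated by `Δ` and `r` elements. The amalgamated subgroup `Φ₃` can be
embedded in any given non-elementary subgroup `Θ` of `Δ`.

So for `n = 3` the first factor and the amalgamated subgroup are as in Q1 for every lattice which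
contains an arithmetic lattice `Δ` of `SU(2, 1)`; the second factor is an arithmetic lattice of
`SU(1, 1)` and not of `SU(2, 1)`. For `n = 2` the first factor can be any non-elementary arithmetic
subgroup `Δ` of `Γ`, cocompact or not.

The third group of Q1 is automatic for `n = 3`: for all groups `Γ₁`, `Γ₂` and `Γ`, there are a lattice
`Γ₃` of `SU(1, 1)` and an epimorphism `Γ₁ ⋆_{Γ₃} Γ₂ → Γ` injective on both factors if and only if `Γ` is
generated by two subgroups isomorphic to `Γ₁` and `Γ₂` whose intersection contains a free group of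
rank `2`; then `Γ₃` can be any free subgroup of finite index of `SL(2, ℤ)`. So for `n = 3` Q1 asks for
a nonarithmetic lattice of `SU(3, 1)` which is generated by two subgroups isomorphic to arithmetic
lattices of `SU(2, 1)` whose intersection contains a free group of rank `2`.

The proof is a game of ping-pong with the elements `g i * (t i * h ^ M * (s i)⁻¹)`, where `h` is a
loxodromic element of `Θ` and `t i`, `s i` are in `Θ`.
-/

set_option autoImplicit false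

open Matrix MeasureTheory

namespace Pool.Agent.Results.MP_5d4057_al.OneSidedHybrids

/-- The Hermitian form `⟨z, w⟩ = -z₀ w̄₀ + z₁ w̄₁ + ... + zₙ w̄ₙ` of signature `(n, 1)` on `ℂⁿ⁺¹`. -/
noncomputable def form (n : ℕ) (z w : Fin (n + 1) → ℂ) : ℂ :=
  -(z 0 * (starRingEnd ℂ) (w 0)) + ∑ i : Fin n, z i.succ * (starRingEnd ℂ) (w i.succ)

/-- The group `SU(n, 1)`: the complex matrices of determinant `1` which preserve the form. -/
def SU (n : ℕ) : Subgroup (SpecialLinearGroup (Fin (n + 1)) ℂ) where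
  carrier := {g | ∀ z w, form n (g.1 *ᵥ z) (g.1 *ᵥ w) = form n z w}
  mul_mem' := (Pool.Agent.N765.HY.SU n).mul_mem'
  one_mem' := (Pool.Agent.N765.HY.SU n).one_mem'
  inv_mem' := (Pool.Agent.N765.HY.SU n).inv_mem'

/-- `Γ` is a lattice of `SU(n, 1)`: it is discrete and the quotient `SU(n, 1)/Γ` has a nonzero finite
invariant Borel measure. -/
def IsLattice (n : ℕ) (Γ : Subgroup (SU n)) : Prop :=
  DiscreteTopology Γ ∧
    ∃ μ : @Measure (SU n ⧸ Γ) (borel (SU n ⧸ Γ)), @IsFiniteMeasure _ (borel (SU n ⧸ Γ)) μ ∧ μ ≠ 0 ∧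
      ∀ g : SU n, @Measure.map _ _ (borel (SU n ⧸ Γ)) (borel (SU n ⧸ Γ)) (fun x => g • x) μ = μ

/-- the action of `SU(n, 1)` on `ℂⁿ⁺¹` -/
def act (n : ℕ) (g : SU n) (v : Fin (n + 1) → ℂ) : Fin (n + 1) → ℂ := g.1.1 *ᵥ v

/-- the orbit of the line of `v` under `Θ` is infinite -/
def InfiniteOrbit (n : ℕ) (Θ : Subgroup (SU n)) (v : Fin (n + 1) → ℂ) : Prop :=
  {L : Submodule ℂ (Fin (n + 1) → ℂ) | ∃ g ∈ Θ, L = Submodule.span ℂ {act n g v}}.Infinite

/-- `Θ` is non-elementary: it contains a loxodromic element `h` whose two fixed points at infinity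
(the null lines of the eigenvectors `v` and `w`) have infinite orbits under `Θ`. -/
def NonElementary (n : ℕ) (Θ : Subgroup (SU n)) : Prop :=
  ∃ h ∈ Θ, ∃ (v w : Fin (n + 1) → ℂ) (a b : ℂ), v ≠ 0 ∧ w ≠ 0 ∧ form n v v = 0 ∧ form n w w = 0 ∧
    act n h v = a • v ∧ act n h w = b • w ∧ ‖b‖ < ‖a‖ ∧
    InfiniteOrbit n Θ v ∧ InfiniteOrbit n Θ w

/-- `Γ` contains a loxodromic element: an element with an eigenvalue of modulus `≠ 1`. -/
def HasLoxodromic (n : ℕ) (Γ : Subgroup (SU n)) : Prop :=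
  ∃ g ∈ Γ, ∃ (v : Fin (n + 1) → ℂ) (l : ℂ), v ≠ 0 ∧ act n g v = l • v ∧ ‖l‖ ≠ 1

/-- `Γ` has no finite orbit at infinity: the orbit of every null line is infinite. -/
def NoFiniteOrbit (n : ℕ) (Γ : Subgroup (SU n)) : Prop :=
  ∀ v : Fin (n + 1) → ℂ, v ≠ 0 → form n v v = 0 → InfiniteOrbit n Γ v

/-- There is an isometric linear embedding `J` of `ℂᵐ⁺¹` in `ℂⁿ⁺¹` (its image is a complex totally
geodesic subspace) such that all elements of the subgroup `Λ` of `SU(m, 1)` are induced on the image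
of `J` by elements of `Θ`; in the complement these may act in any way. -/
def ActsOnSubspace (m n : ℕ) (Λ : Subgroup (SU m)) (Θ : Subgroup (SU n)) : Prop :=
  ∃ J : (Fin (m + 1) → ℂ) →ₗ[ℂ] (Fin (n + 1) → ℂ), (∀ z w, form n (J z) (J w) = form m z w) ∧
    ∀ g ∈ Λ, ∃ g' ∈ Θ, ∀ z, act n g' (J z) = J (act m g z)

/-- `Φ` is a subgroup of finite index of `SL(2, ℤ)` and free of rank `k`: a free arithmetic lattice
of `SL(2, ℝ) = SU(1, 1)`. -/
def IsFreeArithmetic (k : ℕ) (Φ : Subgroup (SpecialLinearGroup (Fin 2) ℤ)) : Prop :=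
  Φ.FiniteIndex ∧ Nonempty (FreeGroup (Fin k) ≃* Φ)

/-- `Γ` is the image of the amalgam `A ⋆_C B` under a homomorphism `ρ` which is injective on `A` and on
`B` (a homomorphism from the free product `A ∗ B` which agrees on the two copies of `C`). -/
def IsHybrid (A B C Γ : Type) [Group A] [Group B] [Group C] [Group Γ] : Prop :=
  ∃ (ι₁ : C →* A) (ι₂ : C →* B) (ρ : Monoid.Coprod A B →* Γ),
    Function.Injective ι₁ ∧ Function.Injective ι₂ ∧
    (∀ x, ρ (Monoid.Coprod.inl (ι₁ x)) = ρ (Monoid.Coprod.inr (ι₂ x))) ∧ Function.Surjective ρ ∧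
    Function.Injective (ρ.comp Monoid.Coprod.inl) ∧ Function.Injective (ρ.comp Monoid.Coprod.inr)

lemma orb_iff (n : ℕ) (Θ : Subgroup (SU n)) (v : Fin (n + 1) → ℂ) :
    InfiniteOrbit n Θ v ↔ (Pool.Agent.N765.HY.Orb (n := n) Θ v).Infinite := by
  constructor
  · intro h
    refine h.mono ?_
    rintro _ ⟨g, hg, rfl⟩
    exact ⟨⟨g, hg⟩, rfl⟩
  · intro h
    refine h.mono ?_
    rintro _ ⟨g, rfl⟩
    exact ⟨g.1, g.2, rfl⟩

lemma nonEl_iff (n : ℕ) (Θ : Subgroup (SU n)) :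
    NonElementary n Θ ↔ Pool.Agent.J4.H51.OS.NonEl (n := n) Θ := by
  constructor
  · rintro ⟨h, hh, v, w, a, b, h1, h2, h3, h4, h5, h6, h7, h8, h9⟩
    exact ⟨h, hh, v, w, a, b, h1, h2, h3, h4, h5, h6, h7, (orb_iff n Θ v).1 h8,
      (orb_iff n Θ w).1 h9⟩
  · rintro ⟨h, hh, v, w, a, b, h1, h2, h3, h4, h5, h6, h7, h8, h9⟩
    exact ⟨h, hh, v, w, a, b, h1, h2, h3, h4, h5, h6, h7, (orb_iff n Θ v).2 h8,
      (orb_iff n Θ w).2 h9⟩

/-- `Γ` is generated by two subgroups isomorphic to `A` and `B` whose intersection contains a free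
group of rank `2`. -/
def MeetInFreeGroup (A B Γ : Type) [Group A] [Group B] [Group Γ] : Prop :=
  ∃ (α : A →* Γ) (β : B →* Γ) (f : FreeGroup (Fin 2) →* Γ), Function.Injective α ∧
    Function.Injective β ∧ Function.Injective f ∧ α.range ⊔ β.range = ⊤ ∧
    ∀ x, f x ∈ α.range ∧ f x ∈ β.range

/-- For subgroups `Θ ≤ Δ ≤ Γ` of `G`: `Γ` is the image of the amalgam `Δ ⋆_C B` under a homomorphism
which is the identity on `Δ` and injective on `B`, where `C` is embedded in the subgroup `Θ` of `Δ`. -/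
def IsHybridOver (G : Type) [Group G] (Γ Δ Θ : Subgroup G) (C B : Type) [Group C] [Group B] :
    Prop :=
  ∃ (ι₁ : C →* Δ) (ι₂ : C →* B) (ρ : Monoid.Coprod Δ B →* Γ),
    Function.Injective ι₁ ∧ Function.Injective ι₂ ∧
    (∀ x, ρ (Monoid.Coprod.inl (ι₁ x)) = ρ (Monoid.Coprod.inr (ι₂ x))) ∧
    Function.Surjective ρ ∧ (∀ x : Δ, (ρ (Monoid.Coprod.inl x) : G) = x) ∧
    Function.Injective (ρ.comp Monoid.Coprod.inr) ∧ (∀ x, (ι₁ x : G) ∈ Θ)

/-- `G` contains a free group of rank `2`. -/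
def ContainsFreeGroup (G : Type) [Group G] : Prop :=
  ∃ f : FreeGroup (Fin 2) →* G, Function.Injective f

/-- `Γ` is generated by `Δ` and `r` elements -/
def GeneratedWith (n r : ℕ) (Γ Δ : Subgroup (SU n)) : Prop :=
  ∃ T : Finset (SU n), T.card = r ∧ Subgroup.closure (T : Set (SU n)) ⊔ Δ = Γ

/-- The third group of Q1 for `n = 3`. -/
def ThirdGroup (A B Γ : Type) [Group A] [Group B] [Group Γ] : Prop :=
  (∀ Γ₃ : Subgroup (SU 1), IsLattice 1 Γ₃ → IsHybrid A B Γ₃ Γ → MeetInFreeGroup A B Γ) ∧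
  ∀ m : ℕ, 2 ≤ m → ∀ Φ₃ : Subgroup (SpecialLinearGroup (Fin 2) ℤ), IsFreeArithmetic m Φ₃ →
    (IsHybrid A B Φ₃ Γ ↔ MeetInFreeGroup A B Γ)

/-- Amalgams with a given first factor `Δ`. -/
def GivenFactor (n : ℕ) (Γ Δ Θ : Subgroup (SU n)) : Prop :=
  Θ ≤ Δ → Δ ≤ Γ → NonElementary n Θ → ∀ r m k : ℕ, GeneratedWith n r Γ Δ → 2 ≤ k → m + r ≤ k →
    ∀ Φ₃ Φ₂ : Subgroup (SpecialLinearGroup (Fin 2) ℤ),
      IsFreeArithmetic m Φ₃ → IsFreeArithmetic k Φ₂ → IsHybridOver (SU n) Γ Δ Θ Φ₃ Φ₂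

/-- Amalgams of free factors. -/
def FreeFactors (n : ℕ) (Γ : Subgroup (SU n)) : Prop :=
  NonElementary n Γ → ∀ r m k : ℕ, GeneratedWith n r Γ ⊥ → 2 ≤ k → m + r ≤ k →
    ∀ Φ₃ Φ₁ Φ₂ : Subgroup (SpecialLinearGroup (Fin 2) ℤ),
      IsFreeArithmetic m Φ₃ → IsFreeArithmetic k Φ₁ → IsFreeArithmetic k Φ₂ →
      IsHybrid Φ₁ Φ₂ Φ₃ Γ

/-- Sufficient conditions for a group to be non-elementary. -/
def Criteria (n : ℕ) (Θ : Subgroup (SU n)) : Prop :=
  (1 ≤ n ∧ IsLattice n Θ) ∨ (HasLoxodromic n Θ ∧ NoFiniteOrbit n Θ) ∨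
    (∃ (m : ℕ) (Λ : Subgroup (SU m)), 1 ≤ m ∧ IsLattice m Λ ∧ ActsOnSubspace m n Λ Θ)

/-- **The third group of Q1 for `n = 3`, and amalgams with one prescribed factor.** -/
theorem result :
    (∀ k : ℕ, 2 ≤ k → ∃ Φ : Subgroup (SpecialLinearGroup (Fin 2) ℤ), IsFreeArithmetic k Φ) ∧
    (∀ (A B Γ : Type) [Group A] [Group B] [Group Γ], ThirdGroup A B Γ) ∧
    (∀ (n : ℕ) (Γ Δ Θ : Subgroup (SU n)), GivenFactor n Γ Δ Θ) ∧
    (∀ (n : ℕ) (Γ : Subgroup (SU n)), FreeFactors n Γ) ∧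
    (∀ (n : ℕ) (Θ : Subgroup (SU n)), Criteria n Θ → NonElementary n Θ) ∧
    (∀ (n : ℕ) (Θ : Subgroup (SU n)), NonElementary n Θ → ContainsFreeGroup Θ) := by
  refine ⟨fun k hk => Pool.Agent.J4.H51.OS.exists_freeSL2 hk, ?_, ?_, ?_, ?_, ?_⟩
  · intro A B Γ _ _ _
    refine ⟨fun Γ₃ hl h => ?_, fun m hm Φ₃ h3 => ⟨fun h => ?_, fun h => ?_⟩⟩
    · have h1 := Pool.Agent.N765.HY.lattice_ok le_rfl Γ₃ hl.2
      obtain ⟨e, he⟩ := Pool.Agent.J4.H51.OS.nonEl_free (n := 1) Γ₃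
        (Pool.Agent.J4.H51.OS.nonEl_of_lox (n := 1) Γ₃ h1.1 h1.2)
      exact Pool.Agent.J4.H51.OS.meet_of_hybrid h e he
    · obtain ⟨e, he⟩ := Pool.Agent.J4.H51.OS.free_emb_Φ hm Φ₃ h3
      exact Pool.Agent.J4.H51.OS.meet_of_hybrid h e he
    · exact Pool.Agent.J4.H51.OS.hybrid_of_meet h hm Φ₃ h3
  · intro n Γ Δ Θ hΘ hΔ hne r m k hT hk2 hk Φ₃ Φ₂ h3 h2
    obtain ⟨T, rfl, hT⟩ := hT
    exact Pool.Agent.J4.H51.OS.main (n := n) Γ Δ Θ hΔ hΘ ((nonEl_iff n Θ).1 hne) T hT m k hk2 hk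
      Φ₃ Φ₂ h3 h2
  · intro n Γ hne r m k hT hk2 hk Φ₃ Φ₁ Φ₂ h3 h1 h2
    obtain ⟨T, rfl, hT⟩ := hT
    rw [sup_bot_eq] at hT
    exact Pool.Agent.J4.H51.OS.main_free (n := n) Γ ((nonEl_iff n Γ).1 hne) T hT m k hk2 hk
      Φ₃ Φ₁ Φ₂ h3 h1 h2
  · intro n Θ h
    rw [nonEl_iff]
    rcases h with ⟨hn, hl⟩ | ⟨hl, ho⟩ | ⟨m, Λ, hm, hl, J, hJ, hj⟩
    · have := Pool.Agent.N765.HY.lattice_ok hn Θ hl.2
      exact Pool.Agent.J4.H51.OS.nonEl_of_lox (n := n) Θ this.1 this.2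
    · exact Pool.Agent.J4.H51.OS.nonEl_of_lox (n := n) Θ hl
        fun v h0 h1 => (orb_iff n Θ v).1 (ho v h0 h1)
    · have := Pool.Agent.N765.HY.lattice_ok hm Λ hl.2
      exact Pool.Agent.J4.H51.OS.nonEl_of_map (n := n) (m := m) Λ
        (Pool.Agent.J4.H51.OS.nonEl_of_lox (n := m) Λ this.1 this.2) Θ J hJ hj
  · intro n Θ hne
    exact Pool.Agent.J4.H51.OS.nonEl_free (n := n) Θ ((nonEl_iff n Θ).1 hne)

end Pool.Agent.Results.MP_5d4057_al.OneSidedHybrids
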